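import Pool.Agent.Helper46.WG.L13
import Pool.Agent.Helper89.OC.All

/-!
# Project PQS (MP_2b6189_al), part 0: objects of prime power dimension

Target: if the prime `p` divides `n` exactly once and `n / p` has at most two prime divisors, then the centre has a nontrivial
Tannakian subcategory.  Every module proves `theorem hXXX : ... → StXXX`; all modules of the projects WG (`Pool.Agent.Helper46.WG`),
YF, YG, OS, OC are proved and may be cited.
-/

set_option autoImplicit false

namespace Pool.Agent.Helper4.PQS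

open Matrix ComplexConjugate Pool.Agent.Helper94.YF Pool.Agent.Helper94.YG Pool.Agent.Helper89.OS
  Pool.Agent.Helper89.OC Pool.Agent.Helper46.WG

/-- **PQS MODULE TNS.**  `M = F (x) F'` for a fusion subset `F` with centralizer `F' = M.cent F`: every simple object is a product.
PROOF.  `NoSym` gives `F ∩ F' ⊆ {unit}` (`M.radical hM hF`) and `F' ∩ F'' ⊆ {unit}` (`M.radical hM (M.cent_fusion F)`), `F ⊆ F''` (`sub_cent_cent`).
(1) For `i ∈ F`, `j ∈ F'`: `∑ k, N i j k ^ 2 = ∑ V, N i (dual i) V * N j (dual j) V` (`M.toMD.sum_common i j`, used in the proof of `exists_tens` in `L12.lean`).  If `N i (dual i) V ≠ 0` then `V ∈ F`, if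
`N j (dual j) V ≠ 0` then `V ∈ F'`, so only `V = unit` contributes and the sum is `1` (`N_dual_unit`).  So there is `k =: i * j` with `N i j k' = if k' = k then 1 else 0`; `d k = d i * d j` (`sumN_d`), and `s k l = s i l * s j l / d l` (`sumN`).
(2) Injectivity: let `i * j = i' * j' = k`.  For `l ∈ F`: `s j l = d j * d l` (as `j ∈ cent F`), so `s k l = s i l * d j`, and `s i l * d j = s i' l * d j'` for all `l ∈ F`.  If `i ≠ i'` then `orth_sub` (on `F`) for `i, i'` gives
`∑_{l ∈ F} s i l * conj (s i' l) = 0`; multiplied by `d j` it is `d j' * ∑_{l ∈ F} |s i' l|^2 = d j' * ∑_F d^2 ≠ 0` (`orth_sub` for `i', i'`): contradiction.  In the same way `j = j'` (with `F'` in place of `F`: for `l ∈ F'` `s i l = d i * d l`, `s_symm`).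
(3) The map `(i, j) ↦ i * j` on `F ×ˢ F'` is injective and `∑ (d (i * j))^2 = (∑_F d^2) * (∑_F' d^2) = gdim` (`dim_cent`), so its image is everything (a missing `X` would give `gdim + (d X)^2 ≤ gdim`). -/
def StTNS : Prop := ∀ (I : Type) [Fintype I] [DecidableEq I] (M : IntegralModularDatum I),
  M.NoSym → ∀ F : Finset I, M.IsFusion F → ∀ X, ∃ i ∈ F, ∃ j ∈ M.cent F, M.d X = M.d i * M.d j

/-- **PQS MODULE PPW.**  No object of prime power dimension in a modular datum without symmetric fusion subset.
PROOF.  Strong induction on `Fintype.card I` (as in `Pool.Agent.Helper46.WG.IntegralModularDatum.reduce`, file `L2.lean`).  If `M.Simple`: `no_prime_power` (`L10.lean`; `X ≠ unit` because `d unit = 1` is not a prime power) gives `d X = 1`,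
contradiction.  Otherwise there is a fusion subset `F ≠ {unit}, univ`; TNS: `d X = d i * d j`, `i ∈ F`, `j ∈ cent F`.  `d X = l ^ r`, `r ≥ 1`, so `d i = l ^ a`, `d j = l ^ b` (`Nat.dvd_prime_pow`), `a + b = r`, so `d i` or `d j` is a
prime power.  Apply the induction hypothesis to `M.restrict F` resp. `M.restrict (cent F)` (`restrict_noSym`, `radical`; `F ≠ univ` gives `card F < card I`; `cent F ≠ univ`, since otherwise `F ⊆ cent (cent F) = cent univ = {unit}`
(`sub_cent_cent`, `cent_univ`), `F = {unit}`). -/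
def StPPW : Prop := StTNS → ∀ (I : Type) [Fintype I] [DecidableEq I] (M : IntegralModularDatum I),
  M.NoSym → ∀ X, ¬ IsPrimePow (M.d X)

/-- **PQS MODULE CBE.**  The same for the centre: an object of prime power dimension and twist `1` which centralizes all
self-dual invertible objects gives a Tannakian subcategory.
PROOF.  Let `M : IntegralModularDatum I` be: `unit = o`, `dual = st`, `d`, `N` of `Z`, and `s i j = conj (Sf Z i j)`, `Sf Z i j = n * S i j`, `S = rho Sm`.  Fields: `s_o`, `s_symm`, `s_dual`; `orth`: `S` is unitary and `∑ d^2 = n^2`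
(row `o`); `verlinde`: multiply the field `verlinde` of `Z` by `n^2` and conjugate.  `θ = Z.th` is `M.IsTwist`: `th i ^ L = 1` (FUS) gives `|th i| = 1`; `th (st i) = th i` (DUA: `Helper88.YF.hDUA`); `balancing`: GLC `twist`
(`Helper38.OC.hGLC`) for `i, st k`: `Sf i (st k) = conj (Sf i k)` (GLA `Sf_chi`, `chi_st`), `st (st k) = k`.
Suppose first `M.NoSym`: PPW contradicts the hypothesis on `k`.  Otherwise there is a symmetric fusion subset `F ≠ {unit}`; `tannakian_or_fermion` (`L11.lean`): in the first case `D i := i ∈ F` is a `TanSet` (`conj` of `d * d` is `d * d`).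
Second case: a fermion `δ` (`M.IsFermion θ δ`, `L12.lean`); `d δ = 1`, `st δ = δ`, so by hypothesis `Sf k δ = d k`, so `k ∈ cent {unit, δ}` (`mem_B`) and `k ∈ RR` (`mem_RR`, `th k = 1`, `upper_one`, `L13.lean`).  If `(quot hf).NoSym`
then PPW for `quot hf` and `⟨k, _⟩` is a contradiction; otherwise `tannakian_of_quot` gives a Tannakian fusion subset of `M`, again a `TanSet`. -/
def StCBE : Prop := StTNS → StPPW → ∀ (I : Type) [Fintype I] [DecidableEq I] (Z : CentreData I)
  (k : I), IsPrimePow (Z.d k) → Z.th k = 1 →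
  (∀ δ, Z.d δ = 1 → Z.st δ = δ → Sf Z k δ = Z.d k) → ∃ D : I → Prop, TanSet Z D

/-- **PQS MODULE G2E.**  An invertible object of twist `1` generates a Tannakian subcategory, any parity of `n`.
PROOF.  As `Pool.Agent.Helper70.AL.hG2T` (file `Pool/Agent/Helper70/AL/M_G2T.lean`, only the last step `twist` there uses `Odd Z.n`), with `D j := D1 j ∧ D2 j ∧ th j = 1`.  The twist is multiplicative on constituents of
products of two elements of `D1 ∧ D2` (GLC `bal`, as `Sf = d * d` there), `th (st j) = th j` (DUA), `th o = 1`. -/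
def StG2E : Prop := ∀ (I : Type) [Fintype I] [DecidableEq I] (Z : CentreData I), Goal2 Z →
  ∃ D : I → Prop, TanSet Z D

/-- **PQS MODULE KPR.**  The identity `∑ y d = g` over `Kp X a` (field `dm` of `Gam`) gives an object of dimension `1` or a prime power.
PROOF.  Suppose not.  `k ∈ Kp X a ⊆ Ks X`: `y k ≠ 0`, so `p ∤ d k` (`Blk.d_nd`), `d k ∣ p * m` (`X.d_dvd`), so `d k ∣ m`, `d k > 1` and not a prime power: two different primes divide it (`Pool.Agent.Helper46.WG.two_primes`), they divide `m`, so they
are `q`, `s`; in particular `q` is prime and `q ∣ d k` for all `k ∈ Kp X a` (if `Kp X a` is empty, `dm` gives `g = 0`, but `g ≥ 2`, MZZ `Helper39.OS.hMZZ`).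
`Kp X a` is a union of orbits `Orb X k` (`OB`: `Helper78.OC.hORB`); on an orbit `y`, `d` are constant, so `∑_{j ∈ Orb k} y j * d j = |Orb k| * y k * d k` is divisible by `g * q` (`g ∣ |Orb k| * y k`: second claim of TSU, `Helper45.OS.hTSU`).
So `g * q ∣ ∑_{Kp} y d = g`, `q ∣ 1`: contradiction. -/
def StKPR : Prop := ∀ (I : Type) [Fintype I] [DecidableEq I] (p : ℕ) [NeZero p] (X : PD I p 1)
  (Q : ℂ → Prop) (N : ℕ) (a : I), Gam X Q N a → ∀ q s : ℕ,
  (∀ l : ℕ, l.Prime → l ∣ X.m → l = q ∨ l = s) → ∃ k ∈ Kp X a, X.d k = 1 ∨ IsPrimePow (X.d k)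

end Pool.Agent.Helper4.PQS
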